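import Pool.Agent.N625.PT.X19
import Pool.Agent.Y877.SxI

/-!
# EVERY large `n`: the number of all `k < n` with `6 k - 1`, `6 k + 1 + N` and `p_{n-k} + N'` prime

Nothing is used besides Mathlib in the statement: the double sums are probabilities, for two independent random integers
`v, v' < b ^ d` with the distributions `μ, μ'`.
-/

set_option autoImplicit false

open Finset

namespace Pool.Agent.Results.MP_ea8352_nt.ExchangeableTwinIndices

/-- The probability, for the distribution `μ` on the words of `k` digits (the integers `v < b ^ k`), that the word begins with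
the `i` digits of `u < b ^ i`. -/
noncomputable def begins (b k : ℕ) (μ : ℕ → ℝ) (i u : ℕ) : ℝ := ∑ w ∈ range (b ^ (k - i)), μ (u * b ^ (k - i) + w)

/-- `p` is a probability on the words of `k` digits in base `b`, read as integers `v < b ^ k`. There is another probability
`μ` with `p ≤ k ^ T μ` such that after every beginning `u` two different blocks `a`, `a'` of `L` digits can be exchanged:
`p (u a w) = r p (u a' w)` for all endings `w`, with a factor `r` between `η` and `1 / η` which does not depend on `w`; and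
given the beginning `u`, each of the two blocks comes next with a probability of at least `η` in the distribution `μ`.
(For `T = 0` one has `μ = p`. For the uniform distribution on a set of words `r` is `1`.) -/
structure Exchangeable (b L : ℕ) (η : ℝ) (T k : ℕ) (p : ℕ → ℝ) : Prop where
  nonneg : ∀ v, 0 ≤ p v
  sum : ∑ v ∈ range (b ^ k), p v = 1
  dominated : ∃ μ : ℕ → ℝ, (∀ v, 0 ≤ μ v) ∧ ∑ v ∈ range (b ^ k), μ v = 1 ∧ (∀ v < b ^ k, p v ≤ (k : ℝ) ^ T * μ v) ∧
    ∀ i u : ℕ, i + L ≤ k → u < b ^ i → ∃ (a a' : ℕ) (r : ℝ), a < a' ∧ a' < b ^ L ∧ η ≤ r ∧ η * r ≤ 1 ∧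
      (∀ w < b ^ (k - (i + L)), p ((b ^ L * u + a) * b ^ (k - (i + L)) + w) = r * p ((b ^ L * u + a') * b ^ (k - (i + L)) + w)) ∧
      η * begins b k μ i u ≤ begins b k μ (i + L) (b ^ L * u + a) ∧
      η * begins b k μ i u ≤ begins b k μ (i + L) (b ^ L * u + a')

/-- the `j`-th prime, `j ≥ 1` -/
noncomputable def p (j : ℕ) : ℕ := Nat.nth Nat.Prime (j - 1)

/-- the product of `1 - 1/q` over the primes `q ≤ y` -/
noncomputable def V (y : ℕ) : ℝ := ∏ q ∈ (Icc 1 y).filter Nat.Prime, (1 - 1 / (q : ℝ))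

/-- the multiple of the product of the primes `≤ y` given by the integers `h` and `c + κ v` -/
def Nv (y h : ℕ) (c κ : ℤ) (v : ℕ) : ℤ := ((primorial y * h : ℕ) : ℤ) * (c + κ * v)

/-- the `0 < k < n` such that `6 k - 1` is prime and `6 k + 1` is prime to `D` -/
def Adm (D n : ℕ) : Finset ℕ := (Ioo 0 n).filter (fun k : ℕ => (6 * k - 1).Prime ∧ (6 * k + 1).Coprime D)

/-- the `0 < k < n` such that `6 k - 1`, `6 k + 1 + N` and `p_m + N'` are prime, where `m = n - k` -/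
noncomputable def Good (n : ℕ) (N N' : ℤ) : Finset ℕ :=
  (Ioo 0 n).filter (fun k : ℕ => (6 * k - 1).Prime ∧ (6 * (k : ℤ) + 1 + N).toNat.Prime ∧ ((p (n - k) : ℤ) + N').toNat.Prime)

lemma begins_sum (b k : ℕ) (μ : ℕ → ℝ) (i u : ℕ) (hi : i < k) :
    ∑ a ∈ range b, begins b k μ (i + 1) (b * u + a) = begins b k μ i u := by
  unfold begins
  obtain ⟨n, hn⟩ : ∃ n, k - i = n + 1 := ⟨k - i - 1, by omega⟩
  have h1 : k - (i + 1) = n := by omega
  rw [h1, hn, pow_succ, mul_comm (b ^ n) b, Pool.Agent.N625.PT.sum_blocks b (b ^ n)]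
  apply sum_congr rfl
  intro a _
  apply sum_congr rfl
  intro w _
  congr 1
  ring

lemma flex_of {b L T k : ℕ} {η : ℝ} {p : ℕ → ℝ} (hp : Exchangeable b L η T k p) : Pool.Agent.N625.PT.Flex b L η T k p := by
  obtain ⟨h0, h1, μ, m0, m1, m2, m3⟩ := hp
  have hT : (0 : ℝ) ≤ (k : ℝ) ^ T := by positivity
  have hb0 : ∀ i u, 0 ≤ begins b k μ i u := fun i u => sum_nonneg fun w _ => m0 _
  refine ⟨h0, h1, fun i u => (k : ℝ) ^ T * begins b k μ i u, fun i u => mul_nonneg hT (hb0 i u), ?_, ?_, ?_, ?_⟩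
  · intro v hv
    refine (m2 v hv).trans (le_of_eq ?_)
    unfold begins
    simp
  · intro i hi u _
    simp only
    rw [← mul_sum, begins_sum b k μ i u hi]
  · simp only
    have : begins b k μ 0 0 = 1 := by
      unfold begins
      simpa using m1
    rw [this, mul_one]
  · intro i u hi hu
    obtain ⟨a, a', r, q1, q2, q3, q4, q5, q6, q7⟩ := m3 i u hi hu
    refine ⟨a, a', r, q1, q2, q3, q4, q5, ?_, ?_⟩
    · simp only
      calc η * ((k : ℝ) ^ T * begins b k μ i u) = (k : ℝ) ^ T * (η * begins b k μ i u) := by ring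
        _ ≤ _ := mul_le_mul_of_nonneg_left q6 hT
    · simp only
      calc η * ((k : ℝ) ^ T * begins b k μ i u) = (k : ℝ) ^ T * (η * begins b k μ i u) := by ring
        _ ≤ _ := mul_le_mul_of_nonneg_left q7 hT

lemma cop_of {a D : ℕ} {N : ℤ} (ha : 1 ≤ a) (hD : 1 ≤ D) (hN : 0 < N) (hDN : (D : ℤ) ∣ N) (hp : (N + (a : ℤ)).toNat.Prime) :
    a.Coprime D := by
  by_contra hcop
  obtain ⟨q, hqp, hqa, hqb⟩ := Nat.Prime.not_coprime_iff_dvd.1 hcop
  have f1 : (q : ℤ) ∣ N + (a : ℤ) := dvd_add ((by exact_mod_cast hqb : (q : ℤ) ∣ (D : ℤ)).trans hDN) (by exact_mod_cast hqa)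
  have f0 : (1 : ℤ) ≤ a := by exact_mod_cast ha
  have f2 : (0 : ℤ) ≤ N + (a : ℤ) := by linarith
  have f3 : q ∣ (N + (a : ℤ)).toNat := by
    rw [← Int.natCast_dvd_natCast, Int.toNat_of_nonneg f2]
    exact f1
  have f4 := (Nat.prime_dvd_prime_iff_eq hqp hp).1 f3
  have f5 : (q : ℤ) ≤ D := by exact_mod_cast Nat.le_of_dvd (by omega) hqb
  have f6 : (D : ℤ) ≤ N := Int.le_of_dvd hN hDN
  have f7 : (q : ℤ) = N + (a : ℤ) := by rw [f4, Int.toNat_of_nonneg f2]
  linarith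

lemma p_prime (n : ℕ) : (p n).Prime := Nat.prime_nth_prime _

lemma p_inj {m n : ℕ} (hm : 1 ≤ m) (hn : 1 ≤ n) (h : p m = p n) : m = n := by
  have := Nat.nth_injective Nat.infinite_setOf_prime h
  omega

lemma adm_low (A : ℕ) : ∃ n₀ : ℕ, ∀ n : ℕ, n₀ ≤ n → ∀ q : ℕ, 1 ≤ q → (q : ℝ) ≤ Real.log n ^ A →
    (n : ℝ) / (10 * q * Real.log n) ≤ ((Adm q n).card : ℝ) := by
  obtain ⟨X₀, h0⟩ := Pool.Agent.N625.PT.ap_low (A + 1)
  refine ⟨max X₀ 1000, fun n hn q hq hqn => ?_⟩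
  have b1 : X₀ ≤ n := by omega
  have b2 : 1000 ≤ n := by omega
  have hnr : (1000 : ℝ) ≤ n := by exact_mod_cast b2
  have hl6 : 6 ≤ Real.log n := by
    have g1 : Real.exp 6 ≤ 1000 := by
      have e1 : Real.exp 6 = Real.exp 1 ^ 6 := by rw [← Real.exp_nat_mul]; norm_num
      rw [e1]
      calc Real.exp 1 ^ 6 ≤ 2.72 ^ 6 := pow_le_pow_left₀ (Real.exp_pos _).le (by linarith [Real.exp_one_lt_d9]) _
        _ ≤ _ := by norm_num
    rw [Real.le_log_iff_exp_le (by linarith)]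
    linarith
  obtain ⟨X, hX⟩ : ∃ X, X = 6 * n - 7 := ⟨_, rfl⟩
  have hXn : n ≤ X := by omega
  have hX5 : 5 * n ≤ X := by omega
  have hXsq : X ≤ n * n := by
    have : 6 * n ≤ n * n := Nat.mul_le_mul_right _ (by omega)
    omega
  have hXr : (0 : ℝ) < X := by exact_mod_cast (by omega : 0 < X)
  have hlog1 : Real.log n ≤ Real.log X := Real.log_le_log (by linarith) (by exact_mod_cast hXn)
  have hlog2 : Real.log X ≤ 2 * Real.log n := by
    have g1 : Real.log X ≤ Real.log ((n : ℝ) * n) := Real.log_le_log hXr (by exact_mod_cast hXsq)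
    rw [Real.log_mul (by positivity) (by positivity)] at g1
    linarith
  have hqr : (1 : ℝ) ≤ q := by exact_mod_cast hq
  have h6q : ((6 * q : ℕ) : ℝ) ≤ Real.log X ^ (A + 1) := by
    push_cast
    calc (6 : ℝ) * q ≤ Real.log n * Real.log n ^ A := mul_le_mul hl6 hqn (by positivity) (by linarith)
      _ = Real.log n ^ (A + 1) := by ring
      _ ≤ _ := pow_le_pow_left₀ (by linarith) hlog1 _
  have hcop : (6 * q - 1).Coprime (6 * q) := by
    have : (6 * q - 1).Coprime (6 * q - 1 + 1) := by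
      rw [Nat.coprime_self_add_right]
      exact Nat.coprime_one_right _
    rwa [Nat.sub_add_cancel (by omega)] at this
  have h1 := h0 X (by omega) (6 * q) (by omega) h6q (6 * q - 1) hcop
  have h2 : ((Icc 1 X).filter (fun r : ℕ => r.Prime ∧ r ≡ 6 * q - 1 [MOD 6 * q])).card ≤ (Adm q n).card := by
    have hdiv : ∀ r : ℕ, r ≡ 6 * q - 1 [MOD 6 * q] → 6 * q ∣ r + 1 := by
      intro r hr
      have g1 : r + 1 ≡ 6 * q - 1 + 1 [MOD 6 * q] := hr.add_right 1
      rw [Nat.sub_add_cancel (by omega)] at g1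
      exact (Nat.modEq_zero_iff_dvd).1 (g1.trans (by rw [Nat.modEq_zero_iff_dvd]))
    apply card_le_card_of_injOn (fun r => (r + 1) / 6)
    · intro r hr
      rw [mem_coe, mem_filter, mem_Icc] at hr
      obtain ⟨⟨g1, g2⟩, g3, g4⟩ := hr
      obtain ⟨t, ht⟩ := hdiv r g4
      have e1 : (r + 1) / 6 = q * t := by
        rw [ht, mul_assoc, Nat.mul_div_cancel_left _ (by norm_num)]
      have e2 : r + 1 = 6 * (q * t) := by rw [ht, mul_assoc]
      show (r + 1) / 6 ∈ Adm q n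
      rw [e1]
      unfold Adm
      rw [mem_filter, mem_Ioo]
      refine ⟨⟨by omega, by omega⟩, ?_, ?_⟩
      · have : 6 * (q * t) - 1 = r := by omega
        rw [this]
        exact g3
      · have e3 : 6 * (q * t) + 1 = q * (6 * t) + 1 := by ring
        rw [e3, Nat.coprime_comm]
        exact (Nat.coprime_mul_left_add_right q 1 (6 * t)).2 (Nat.coprime_one_right q)
    · intro r hr s hs hrs
      rw [mem_coe, mem_filter] at hr hs
      obtain ⟨t, ht⟩ := hdiv r hr.2.2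
      obtain ⟨u, hu⟩ := hdiv s hs.2.2
      simp only at hrs
      rw [mul_assoc] at ht hu
      omega
  have h3 : (((Icc 1 X).filter (fun r : ℕ => r.Prime ∧ r ≡ 6 * q - 1 [MOD 6 * q])).card : ℝ) ≤ ((Adm q n).card : ℝ) := by exact_mod_cast h2
  refine le_trans ?_ (h1.trans h3)
  have hX5r : (5 : ℝ) * n ≤ X := by exact_mod_cast hX5
  have hl0 : 0 < Real.log X := by linarith
  rw [div_le_div_iff₀ (by positivity) (by positivity)]
  push_cast
  calc (n : ℝ) * (4 * (6 * q) * Real.log X) ≤ n * (4 * (6 * q) * (2 * Real.log n)) := by gcongr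
    _ = (5 * n) * (48 / 5 * q * Real.log n) := by ring
    _ ≤ X * (10 * q * Real.log n) := by
        apply mul_le_mul hX5r _ (by positivity) hXr.le
        have : 0 ≤ (q : ℝ) * Real.log n := by positivity
        nlinarith

/-- Let `v`, `v' < b ^ d` be independent random integers whose distributions `μ`, `μ'` have exchangeable blocks of digits,
let `y` be between `θ log d` and `K₁ log d` (`θ > 0` is arbitrary), `M` the product of the primes `≤ y`,
`|c|, |c'| ≤ B b ^ d`, `1 ≤ h, h' ≤ d ^ J`, `N = M h (c + κ v)`, `N' = M h' (c' + κ' v')`, and let `n` be ANY integer with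
`b ^ d ≤ n d ^ C`, `n ≤ b ^ d d ^ C`. There are at least `n / (10 M h log n)` integers `0 < k < n` such that `6 k - 1` is prime
and `6 k + 1` is prime to `M h`; let `E` be their number divided by `(V y log b ^ d) ^ 2`. With a probability of at least
`1 - ε`, if `N, N' > 0`, then the number of ALL decompositions `n = k + m` with `k, m ≥ 1` such that `6 k - 1`,
`6 k + 1 + N` and `p_m + N'` are prime differs from `E` by at most `ε E`. -/
theorem result : ∀ (b L : ℕ), 2 ≤ b → 1 ≤ L → ∀ η : ℝ, 0 < η → η ≤ 1 → ∀ (T₀ : ℕ) (κ κ' : ℤ), κ ≠ 0 → κ' ≠ 0 →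
    ∀ (B J C K₁ : ℕ) (θ : ℝ), 0 < θ → ∀ ε : ℝ, 0 < ε → ε ≤ 1 → ∃ d₀ : ℕ, ∀ d : ℕ, d₀ ≤ d →
    ∀ μ μ' : ℕ → ℝ, Exchangeable b L η T₀ d μ → Exchangeable b L η T₀ d μ' →
    ∀ y : ℕ, θ * Real.log d ≤ y → y ≤ K₁ * Real.log d →
    ∀ c c' : ℤ, |c| ≤ B * (b : ℤ) ^ d → |c'| ≤ B * (b : ℤ) ^ d → ∀ h h' : ℕ, 1 ≤ h → h ≤ d ^ J → 1 ≤ h' → h' ≤ d ^ J →
    ∀ n : ℕ, b ^ d ≤ n * d ^ C → n ≤ b ^ d * d ^ C →
      (n : ℝ) / (10 * (primorial y * h) * Real.log n) ≤ ((Adm (primorial y * h) n).card : ℝ) ∧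
      ∑ v ∈ range (b ^ d), ∑ v' ∈ range (b ^ d), (if 0 < Nv y h c κ v → 0 < Nv y h' c' κ' v' →
        |((Good n (Nv y h c κ v) (Nv y h' c' κ' v')).card : ℝ) - (Adm (primorial y * h) n).card / (V y * (d * Real.log b)) ^ 2| ≤
          ε * ((Adm (primorial y * h) n).card / (V y * (d * Real.log b)) ^ 2) then 0 else μ v * μ' v') ≤ ε := by
  classical
  intro b L hb hL η hη0 hη1 T₀ κ κ' hκ hκ' B J C K₁ θ hθ ε hε hε1
  obtain ⟨A, hA⟩ : ∃ A, A = 2 * K₁ + J := ⟨_, rfl⟩
  obtain ⟨k₀, h0⟩ := Pool.Agent.N625.PT.pair_all b L hb hL η hη0 hη1 κ κ' hκ hκ' T₀ B J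
    (A + 8) (C + 4) K₁ θ hθ ε hε hε1
  obtain ⟨n0, hn0⟩ := adm_low (A + 1)
  obtain ⟨k₁, h1⟩ := Pool.Agent.N625.PT.X_large b C hb
  obtain ⟨k₂, h2⟩ := Pool.Agent.N625.PT.log_X b C hb
  obtain ⟨k₃, h3⟩ := Pool.Agent.N625.PT.log_low b C hb
  obtain ⟨n4, hn4⟩ := Pool.Agent.Y877.SX.nth_le_log
  refine ⟨max (max k₀ k₁) (max (max k₂ k₃) (max (max 10 n4) (max n0 (4 ^ (A + 1))))), fun d hd μ μ' hμ hμ' y hy1 hy2 c c' hc hc' h h' hh1 hhJ hh1' hhJ' n hx1 hx2 => ?_⟩
  have b4 : 10 ≤ d := by omega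
  have b5 : 4 ^ (A + 1) ≤ d := by omega
  have hkr : (10 : ℝ) ≤ d := by exact_mod_cast b4
  have hk0 : (0 : ℝ) < d := by linarith
  have hkx := h1 d (by omega) n hx1
  have hlx := h2 d (by omega) n hx2
  have hll := h3 d (by omega) n hx1
  have hln : 0 ≤ Real.log n := Real.log_natCast_nonneg n
  have hn00 : (0 : ℝ) ≤ n := Nat.cast_nonneg n
  obtain ⟨q, hq⟩ : ∃ q, q = primorial y * h := ⟨_, rfl⟩
  have hq1 : 1 ≤ q := by rw [hq]; exact Nat.mul_pos (primorial_pos y) hh1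
  have hqk : q ≤ d ^ A := by
    rw [hq, hA]
    exact Pool.Agent.N625.PT.mult_small K₁ J d y h (by omega) hy2 hhJ
  have hqkr : (q : ℝ) ≤ (d : ℝ) ^ A := by exact_mod_cast hqk
  have hqL : (q : ℝ) ≤ Real.log n ^ (A + 1) := by
    refine hqkr.trans ?_
    have g2 : ((d : ℝ) / 4) ^ (A + 1) ≤ Real.log n ^ (A + 1) := pow_le_pow_left₀ (by positivity) hll _
    refine le_trans ?_ g2
    rw [div_pow, le_div_iff₀ (by positivity), pow_succ]
    have g3 : ((4 : ℝ)) ^ (A + 1) ≤ d := by exact_mod_cast b5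
    exact mul_le_mul_of_nonneg_left g3 (by positivity)
  have hlow := hn0 n (by omega) q hq1 hqL
  have hq0 : (0 : ℝ) < q := by exact_mod_cast (by omega : 0 < q)
  have hl0 : 0 < Real.log n := by
    have : 0 < (d : ℝ) / 4 := by positivity
    linarith
  refine ⟨by
    have := hlow
    rw [hq] at this
    push_cast at this
    exact this, ?_⟩
  have hX1 : b ^ d ≤ (n * d ^ 4) * d ^ (C + 4) := by
    refine hx1.trans ?_
    rw [mul_assoc, ← pow_add]
    exact Nat.mul_le_mul_left _ (Nat.pow_le_pow_right (by omega) (by omega))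
  have hX2 : n * d ^ 4 ≤ b ^ d * d ^ (C + 4) := by
    calc n * d ^ 4 ≤ (b ^ d * d ^ C) * d ^ 4 := Nat.mul_le_mul_right _ hx2
      _ = _ := by rw [mul_assoc, ← pow_add]
  have hp : ∀ m : ℕ, m ≤ 4 * n → p m ≤ n * d ^ 4 := by
    intro m hm
    have g1 : ((p m : ℕ) : ℝ) ≤ n * (d : ℝ) ^ 4 := by
      refine (hn4 n (by omega) (m - 1) (by omega)).trans ?_
      apply mul_le_mul_of_nonneg_left _ hn00
      calc Real.log n ^ 2 ≤ ((d : ℝ) ^ 2) ^ 2 := pow_le_pow_left₀ hln hlx _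
        _ = (d : ℝ) ^ 4 := by rw [← pow_mul]
    exact_mod_cast g1
  obtain ⟨S, hS⟩ : ∃ S, S = Adm q n := ⟨_, rfl⟩
  rw [← hS] at hlow
  have hden : ((n * d ^ 4 : ℕ) : ℝ) ≤ S.card * (d : ℝ) ^ (A + 8) := by
    rw [div_le_iff₀ (by positivity)] at hlow
    push_cast
    calc (n : ℝ) * (d : ℝ) ^ 4 ≤ (S.card * (10 * q * Real.log n)) * (d : ℝ) ^ 4 := mul_le_mul_of_nonneg_right hlow (by positivity)
      _ ≤ (S.card * (d * (d : ℝ) ^ A * (d : ℝ) ^ 2)) * (d : ℝ) ^ 4 := by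
          gcongr
          all_goals linarith
      _ = S.card * (d : ℝ) ^ (A + 7) := by ring
      _ ≤ _ := by
          apply mul_le_mul_of_nonneg_left _ (Nat.cast_nonneg _)
          exact pow_le_pow_right₀ (by linarith) (by omega)
  have hS1 : ∀ k ∈ S, k ∈ Ioo 0 n ∧ (6 * k - 1).Prime ∧ (6 * k + 1).Coprime (primorial y * h) := by
    intro k hk
    rw [hS] at hk
    unfold Adm at hk
    rw [mem_filter] at hk
    rw [← hq]
    exact hk
  have h5 := h0 d (by omega) μ μ' (flex_of hμ) (flex_of hμ') y hy1 hy2 c c' hc hc' h h' hh1 hhJ hh1' hhJ' (n * d ^ 4) hX1 hX2 S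
    (fun k => 6 * k + 1) (fun k => p (n - k)) (fun a _ b _ hab => by
      simp only at hab
      omega) (fun a ha b hb hab => by
      have e1 := mem_Ioo.1 (hS1 a (by exact_mod_cast ha)).1
      have e2 := mem_Ioo.1 (hS1 b (by exact_mod_cast hb)).1
      have := p_inj (by omega) (by omega) hab
      omega) (by
      intro k hk
      obtain ⟨g0, g1, g2⟩ := hS1 k hk
      rw [mem_Ioo] at g0
      refine ⟨by omega, ?_, g2⟩
      calc 6 * k + 1 ≤ n * 7 := by omega
        _ ≤ n * d ^ 4 := Nat.mul_le_mul_left _ ((by omega : 7 ≤ d).trans (Nat.le_self_pow (by norm_num) d))) (by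
      intro k hk
      obtain ⟨g0, g1, g2⟩ := hS1 k hk
      exact ⟨p_prime _, hp _ (by
        have := mem_Ioo.1 g0
        omega)⟩) hden
  refine le_trans (le_of_eq ?_) h5
  apply sum_congr rfl
  intro v _
  apply sum_congr rfl
  intro v' _
  have hN1 : Pool.Agent.N625.PT.Nm y h c κ v = Nv y h c κ v := rfl
  have hN2 : Pool.Agent.N625.PT.Nm y h' c' κ' v' = Nv y h' c' κ' v' := rfl
  have hV : Pool.Agent.H373R2.T7.Vz y = V y := rfl
  rw [hN1, hN2, hV, ← hq, ← hS]
  have key : 0 < Nv y h c κ v → (Good n (Nv y h c κ v) (Nv y h' c' κ' v')) =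
      S.filter (fun k => (Nv y h c κ v + ((6 * k + 1 : ℕ) : ℤ)).toNat.Prime ∧ (Nv y h' c' κ' v' + ((p (n - k) : ℕ) : ℤ)).toNat.Prime) := by
    intro hNpos
    have hDN : ((primorial y * h : ℕ) : ℤ) ∣ Nv y h c κ v := by
      unfold Nv
      exact dvd_mul_right _ _
    ext k
    unfold Good
    rw [mem_filter, mem_filter]
    have e1 : (6 * (k : ℤ) + 1 + Nv y h c κ v) = Nv y h c κ v + ((6 * k + 1 : ℕ) : ℤ) := by
      push_cast
      ring
    have e2 : ((p (n - k) : ℕ) : ℤ) + Nv y h' c' κ' v' = Nv y h' c' κ' v' + ((p (n - k) : ℕ) : ℤ) := by ring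
    rw [e1, e2]
    constructor
    · rintro ⟨g1, g2, g3, g4⟩
      refine ⟨?_, g3, g4⟩
      rw [hS]
      unfold Adm
      rw [mem_filter, hq]
      exact ⟨g1, g2, cop_of (by omega) (Nat.mul_pos (primorial_pos y) hh1) hNpos hDN g3⟩
    · rintro ⟨g1, g3, g4⟩
      obtain ⟨g5, g6, g7⟩ := hS1 k g1
      exact ⟨g5, g6, g3, g4⟩
  congr 1
  apply propext
  constructor
  · intro q3 q1 q2
    rw [← key q1]
    exact q3 q1 q2
  · intro q3 q1 q2
    rw [key q1]
    exact q3 q1 q2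

end Pool.Agent.Results.MP_ea8352_nt.ExchangeableTwinIndices
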