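import Mathlib
import Pool.Agent.N9.AD.Ea2
import Pool.Agent.N9.AD.Model

/-!
# Sums of two indices of twin-prime type in all sieved sequential random models

The integers are decided one after the other; the multiples of the primes of a finite set `Q` are
never chosen and the conditional probability of choosing an integer `n + 1` which is not such a
multiple, given the decisions up to `n`, is asymptotic to `∏_{p ∈ Q} (1 - 1 / p)⁻¹ / log n`, almost
surely. No independence and no rate of convergence are assumed. In every such model, almost surely,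
every large `n` is a sum `k + m` with `6 k - 1`, `6 k + 1`, the `m`-th chosen integer `s` and `s + 2`
all chosen, with `s ≤ K (log n)³ (log log n)²`; the number of the representations with `s ≤ x` is
asymptotically the expected one, uniformly in `x`.

Method (`Pool/Agent/N9/AD`): an exponential supermartingale (helper893) gives the law of predictable
sums along any decreasing sequence of integers, uniformly. It is used for `6 (n - m) + 1` and
`6 (n - m) - 1`, the weight being whether `m` is the index of a twin, and for `s + 2`; the chosen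
integers with index in a class are equidistributed in the residue classes coprime to the sieved
primes.

The notion of a sequential model and the theorem on Hawkins' sieve are from the team files by
helper528 (`Pool/Agent/R528/RM`) and helper740 (`Pool/Agent/N740/HK`).
-/

set_option autoImplicit false

open MeasureTheory Filter Set
open scoped Topology

namespace Pool.Agent.Results.MP_ea8352_nt.SievedModels

variable {Ω : Type}

/-- `A n` is the event that `n` is chosen; adapted to `ℱ`; multiples of the primes in `Q` are not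
chosen; the conditional probability of `A (n + 1)` given `ℱ n`, times `log n`, tends almost surely to
`∏_{p ∈ Q} (1 - 1 / p)⁻¹` along the `n` such that no `p ∈ Q` divides `n + 1` -/
def SievedModel [m : MeasurableSpace Ω] (μ : Measure Ω) (ℱ : Filtration ℕ m) (A : ℕ → Set Ω)
    (Q : Finset ℕ) : Prop :=
  (∀ n, MeasurableSet[ℱ n] (A n)) ∧ (∀ n, (∃ p ∈ Q, p ∣ n) → A n = ∅) ∧
  ∀ᵐ ω ∂μ, Tendsto (fun n : ℕ => (μ[(A (n + 1)).indicator (fun _ => (1 : ℝ)) | ℱ n]) ω * Real.log n)
    (atTop ⊓ 𝓟 {n : ℕ | ∀ p ∈ Q, ¬ p ∣ n + 1}) (𝓝 (∏ p ∈ Q, (1 - 1 / (p : ℝ))⁻¹))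

open Classical in
/-- The random sieve of Hawkins: `2` is chosen, and given the decisions up to `n ≥ 2` the number
`n + 1` is chosen with probability `∏ (1 - 1 / h)`, the product over the chosen `2 ≤ h ≤ n`. -/
def HawkinsSieve [m : MeasurableSpace Ω] (μ : Measure Ω) (ℱ : Filtration ℕ m) (A : ℕ → Set Ω) : Prop :=
  (∀ n, MeasurableSet[ℱ n] (A n)) ∧ A 2 = univ ∧
  ∀ n, 2 ≤ n → μ[(A (n + 1)).indicator (fun _ => (1 : ℝ)) | ℱ n] =ᵐ[μ]
    fun ω => ∏ h ∈ Finset.Icc 2 n, if ω ∈ A h then 1 - 1 / (h : ℝ) else 1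

/-- `π(n)` in the model: the number of the chosen integers in `[1, n]`; a chosen `s` is the
`π(s)`-th chosen integer -/
noncomputable def pi (A : ℕ → Set Ω) (ω : Ω) (n : ℕ) : ℕ := {i : ℕ | 1 ≤ i ∧ i ≤ n ∧ ω ∈ A i}.ncard

/-- the number of the `1 ≤ s ≤ x` such that `s`, `s + 2`, `6 (n - π(s)) - 1`, `6 (n - π(s)) + 1` are
chosen -/
noncomputable def reps (A : ℕ → Set Ω) (ω : Ω) (n x : ℕ) : ℕ :=
  {s : ℕ | 1 ≤ s ∧ s ≤ x ∧ (ω ∈ A s ∧ ω ∈ A (s + 2) ∧ ω ∈ A (6 * (n - pi A ω s) - 1) ∧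
    ω ∈ A (6 * (n - pi A ω s) + 1))}.ncard

/-- the local density: with `W` the product of the primes in `Q`, the proportion of the residues `b`
modulo `W` with `b (b + 2)` coprime to `W`, times the proportion of the residues `k` with
`(6 k - 1) (6 k + 1)` coprime to `W`, divided by `(φ(W) / W) ^ 4` -/
noncomputable def sing (Q : Finset ℕ) : ℝ :=
  ({b : ℕ | b < ∏ p ∈ Q, p ∧ IsCoprime ((b : ℤ) * (b + 2)) ((∏ p ∈ Q, p : ℕ) : ℤ)}.ncard /
      ((∏ p ∈ Q, p : ℕ) : ℝ)) *
    ({k : ℕ | k < ∏ p ∈ Q, p ∧ IsCoprime ((6 * (k : ℤ) - 1) * (6 * k + 1))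
      ((∏ p ∈ Q, p : ℕ) : ℤ)}.ncard / ((∏ p ∈ Q, p : ℕ) : ℝ)) *
    (((∏ p ∈ Q, p : ℕ) : ℝ) / Nat.totient (∏ p ∈ Q, p)) ^ 4

open Pool.Agent.R528.RM Pool.Agent.N9.AD

lemma pi_eq (A : ℕ → Set Ω) (ω : Ω) (n : ℕ) : pi A ω n = cnt A ω n := cnt_ncard ω n

lemma reps_eq (A : ℕ → Set Ω) (ω : Ω) (n x : ℕ) :
    (reps A ω n x : ℝ) = ∑ s ∈ Finset.Icc 1 x, In A s ω * In A (s + 2) ω *
          (In A (6 * (n - cnt A ω s) - 1) ω * In A (6 * (n - cnt A ω s) + 1) ω) := by
  unfold reps
  apply ncard_sum (fun s => ω ∈ A s ∧ ω ∈ A (s + 2) ∧ ω ∈ A (6 * (n - pi A ω s) - 1) ∧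
    ω ∈ A (6 * (n - pi A ω s) + 1))
    (fun s => In A s ω * In A (s + 2) ω *
          (In A (6 * (n - cnt A ω s) - 1) ω * In A (6 * (n - cnt A ω s) + 1) ω))
  · rintro s ⟨h1, h2, h3, h4⟩
    rw [pi_eq] at h3 h4
    have e1 : In A s ω = 1 := indicator_of_mem h1 _
    have e2 : In A (s + 2) ω = 1 := indicator_of_mem h2 _
    have e3 : In A (6 * (n - cnt A ω s) - 1) ω = 1 := indicator_of_mem h3 _
    have e4 : In A (6 * (n - cnt A ω s) + 1) ω = 1 := indicator_of_mem h4 _
    simp only [e1, e2, e3, e4, mul_one]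
  · intro s h
    rw [pi_eq] at h
    by_cases h1 : ω ∈ A s
    · by_cases h2 : ω ∈ A (s + 2)
      · by_cases h3 : ω ∈ A (6 * (n - cnt A ω s) - 1)
        · have e4 : In A (6 * (n - cnt A ω s) + 1) ω = 0 :=
            indicator_of_notMem (fun h4 => h ⟨h1, h2, h3, h4⟩) _
          simp only [e4, mul_zero]
        · have e3 : In A (6 * (n - cnt A ω s) - 1) ω = 0 := indicator_of_notMem h3 _
          simp only [e3, mul_zero, zero_mul]
      · have e2 : In A (s + 2) ω = 0 := indicator_of_notMem h2 _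
        simp only [e2, mul_zero, zero_mul]
    · have e1 : In A s ω = 0 := indicator_of_notMem h1 _
      simp only [e1, zero_mul]

lemma ar (n x s t : ℕ) (hx : x ≤ n / 2) (h2 : 2 ≤ x) (hs : s ≤ x) (ht : t ≤ s) : t ≤ n ∧ 1 ≤ n - t := by
  omega

end Pool.Agent.Results.MP_ea8352_nt.SievedModels

open Pool.Agent.Results.MP_ea8352_nt.SievedModels Pool.Agent.R528.RM Pool.Agent.N9.AD

/-- Hawkins' sieve is a sieved model with `Q = ∅`. In every sieved model: (1) almost surely for every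
`ε > 0` there is a `K` such that for all large `n` and all `2 ≤ x ≤ n / 2` the number of the `s ≤ x`
with `s`, `s + 2`, `6 (n - π(s)) - 1`, `6 (n - π(s)) + 1` chosen differs from
`𝔖 x / (log² x log² n)` by at most `ε x / (log² x log² n) + K log n`, and `𝔖 > 0`; (2) almost
surely, for some `K` every large `n` is a sum `k + m` with `k, m ≥ 1` such that `6 k - 1`, `6 k + 1`,
the `m`-th chosen integer `s` and `s + 2` are chosen, and `s ≤ K (log n)³ (log log n)²`. -/
theorem Pool.Agent.Results.MP_ea8352_nt.SievedModels.result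
    {Ω : Type} [m : MeasurableSpace Ω] (μ : Measure Ω) [IsProbabilityMeasure μ]
    (ℱ : Filtration ℕ m) (A : ℕ → Set Ω) :
    (HawkinsSieve μ ℱ A → SievedModel μ ℱ A ∅) ∧
    (∀ Q : Finset ℕ, (∀ p ∈ Q, p.Prime) → SievedModel μ ℱ A Q →
      (∀ᵐ ω ∂μ, ∀ ε : ℝ, 0 < ε → ∃ K : ℝ, ∀ᶠ n : ℕ in atTop, ∀ x : ℕ, 2 ≤ x → 2 * x ≤ n →
        |(reps A ω n x : ℝ) - sing Q * (x / (Real.log x ^ 2 * Real.log n ^ 2))| ≤
          ε * (x / (Real.log x ^ 2 * Real.log n ^ 2)) + K * Real.log n) ∧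
      0 < sing Q ∧
      (∀ᵐ ω ∂μ, ∃ K : ℝ, ∀ᶠ n : ℕ in atTop, ∃ k m s : ℕ, n = k + m ∧ 1 ≤ k ∧ 1 ≤ m ∧
        ω ∈ A (6 * k - 1) ∧ ω ∈ A (6 * k + 1) ∧ ω ∈ A s ∧ pi A ω s = m ∧ ω ∈ A (s + 2) ∧
        (s : ℝ) ≤ K * Real.log n ^ 3 * Real.log (Real.log n) ^ 2)) := by
  classical
  refine ⟨hawkins μ ℱ A, ?_⟩
  rintro Q hQ ⟨hA, hcop, hd⟩
  have hlaw := ea_law (μ := μ) hA Q hQ hcop hd
  set W := ∏ p ∈ Q, p with hWdef
  have hW : 0 < W := Finset.prod_pos fun q hq => (hQ q hq).pos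
  have hWR : (0 : ℝ) < W := by exact_mod_cast hW
  have hφR : (0 : ℝ) < Nat.totient W := by exact_mod_cast Nat.totient_pos.2 hW
  have hK6 : (0 : ℝ) < (K6 W).card := by exact_mod_cast K6_pos hW
  have hβ : (0 : ℝ) < ((Finset.range W).filter (fun b => Nat.Coprime b W ∧
    Nat.Coprime (b + 2) W)).card := by exact_mod_cast beta_pos hW
  have hsing : sing Q = (((((Finset.range W).filter (fun b => Nat.Coprime b W ∧
    Nat.Coprime (b + 2) W)).card : ℕ) : ℝ) / W) * ((K6 W).card / W) *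
    ((W : ℝ) / Nat.totient W) ^ 4 := by
    unfold sing
    rw [beta_eq, K6_eq]
  have hpos : 0 < sing Q := by
    rw [hsing]
    positivity
  have hconst : ∀ n, 1 ≤ n → ((W : ℝ) / Nat.totient W) ^ 2 *
        (((G6 W n).card : ℝ) * (((W : ℝ) / Nat.totient W) *
          ((((Finset.range W).filter (fun b => Nat.Coprime b W ∧
          Nat.Coprime (b + 2) W)).card : ℝ) * (1 / (W : ℝ) / Nat.totient W)))) = sing Q := by
    intro n hn
    rw [G6_card hW hn, hsing]
    field_simp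
  have hlaw2 : ∀ᵐ ω ∂μ, ∀ ε : ℝ, 0 < ε → ∃ K : ℝ, 0 < K ∧ ∀ᶠ n : ℕ in atTop, ∀ x : ℕ, 2 ≤ x → x ≤ n / 2 →
        |(reps A ω n x : ℝ) - sing Q * (x / (Real.log x ^ 2 * Real.log n ^ 2))| ≤
          ε * (x / (Real.log x ^ 2 * Real.log n ^ 2)) + K * Real.log n := by
    filter_upwards [hlaw] with ω hω ε hε
    obtain ⟨K, hK0, hK⟩ := hω ε hε
    refine ⟨K, hK0, ?_⟩
    filter_upwards [hK, eventually_ge_atTop 1] with n hn hn1 x hx2 hx
    have h1 := hn x hx2 hx
    rw [hconst n hn1] at h1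
    rw [reps_eq]
    exact h1
  refine ⟨?_, hpos, ?_⟩
  · filter_upwards [hlaw2] with ω hω ε hε
    obtain ⟨K, _, hK⟩ := hω ε hε
    refine ⟨K, ?_⟩
    filter_upwards [hK] with n hn x hx2 hx
    exact hn x hx2 (by omega)
  · filter_upwards [hlaw2] with ω hω
    obtain ⟨K, hK0, hK⟩ := fin_least (fun n x => (reps A ω n x : ℝ))
      (fun _ => sing Q) (fun n => n / 2) 2 2 (sing Q) hpos (fun _ => True)
      (by
        filter_upwards [eventually_ge_atTop 0] with n _ _
        exact le_rfl)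
      (by
        have h2 := (isLittleO_log_rpow_rpow_atTop ((4 : ℕ) : ℝ) (zero_lt_one)).bound
          (show (0 : ℝ) < 1 / 4 by norm_num)
        filter_upwards [tendsto_natCast_atTop_atTop.eventually h2, eventually_ge_atTop 10] with N g1 g2
        have hN : (10 : ℝ) ≤ N := by exact_mod_cast g2
        have g3 : 0 ≤ Real.log (N : ℝ) := Real.log_natCast_nonneg N
        rw [Real.norm_eq_abs, Real.norm_eq_abs, abs_of_nonneg (Real.rpow_nonneg g3 _),
          abs_of_nonneg (Real.rpow_nonneg (by linarith) _), Real.rpow_natCast, Real.rpow_one] at g1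
        have g4 : (N : ℝ) ≤ 4 * (N / 2 : ℕ) := by
          have : N ≤ 4 * (N / 2) := by omega
          exact_mod_cast this
        calc Real.log (N : ℝ) ^ (2 + 2) ≤ 1 / 4 * N := g1
          _ ≤ (N / 2 : ℕ) := by linarith)
      hω
    refine ⟨K, ?_⟩
    filter_upwards [hK] with n hn
    obtain ⟨x, hx2, hxX, hxK, hpos'⟩ := hn trivial
    have hne : {s : ℕ | 1 ≤ s ∧ s ≤ x ∧ (ω ∈ A s ∧ ω ∈ A (s + 2) ∧ ω ∈ A (6 * (n - pi A ω s) - 1) ∧
        ω ∈ A (6 * (n - pi A ω s) + 1))}.Nonempty := by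
      rw [Set.nonempty_iff_ne_empty]
      intro h
      have h1 : reps A ω n x = 0 := by
        unfold reps
        rw [h, Set.ncard_empty]
      rw [h1, Nat.cast_zero] at hpos'
      exact lt_irrefl _ hpos'
    obtain ⟨s, hs1, hsx, q1, q2, q3, q4⟩ := hne
    have h1 : pi A ω s ≤ s := by
      rw [pi_eq]
      exact cnt_le ω s
    have h2 : 1 ≤ pi A ω s := by
      rw [pi_eq]
      exact cnt_pos_of_mem hs1 q1
    obtain ⟨h3, h4⟩ := ar n x s (pi A ω s) hxX hx2 hsx h1
    refine ⟨n - pi A ω s, pi A ω s, s, (Nat.sub_add_cancel h3).symm, h4, h2, q3, q4, q1, rfl, q2, ?_⟩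
    have : (s : ℝ) ≤ x := by exact_mod_cast hsx
    exact this.trans hxK
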